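import Mathlib
import Pool.Agent.LT77.Bases

set_option autoImplicit false

namespace Pool.Agent.Results.MP_0b346b_co.Tripling

open Pool.Agent.LT77

/-- If `n ≡ 1 (mod 6)` and a latin triangle of order `n` exists, then a latin triangle of order
`3 n + 4` exists; and a latin triangle of order `3 ^ m * q - 2` exists for every `m ≥ 1` and every
odd `q ≤ 33`. -/
theorem result : (∀ n : ℕ, n % 6 = 1 → HasLatinTriangle n → HasLatinTriangle (3 * n + 4)) ∧
    (∀ m q : ℕ, 1 ≤ m → Odd q → q ≤ 33 → HasLatinTriangle (3 ^ m * q - 2)) := by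
  refine ⟨fun n hn h => tripling hn h, fun m q hm hq h => ?_⟩
  obtain ⟨m, rfl⟩ : ∃ m', m = m' + 1 := ⟨m - 1, by omega⟩
  exact family hq (bases hq h) m

end Pool.Agent.Results.MP_0b346b_co.Tripling
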